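import Pool.Agent.Helper56.RF.Loads

/-!
# Case (b): the totals of the users
-/

set_option autoImplicit false
set_option linter.unusedSectionVars false

namespace H20SW.Cone

open Finset
open scoped Classical

variable {Y U E G P R : Type} [Fintype Y] [Fintype U] [Fintype E]

/-- the points in the pairs of the family -/
noncomputable def sup1 (J : Finset E) (α β : E → Y) : Finset Y := J.image α ∪ J.image β

theorem sup1_card (J : Finset E) (α β : E → Y) : (sup1 J α β).card ≤ 2 * J.card := by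
  unfold sup1
  have h1 := Finset.card_union_le (J.image α) (J.image β)
  have h2 : (J.image α).card ≤ J.card := Finset.card_image_le
  have h3 : (J.image β).card ≤ J.card := Finset.card_image_le
  omega

/-- the sum over the fat allowed lines which are not broken -/
noncomputable def Gz (C : Cone Y U E G P R) (p : ℕ) (Q1 : Finset Y) (z : U) : ℝ :=
  ∑ l ∈ univ.filter (fun l => C.ok z l ∧ p ≤ C.tl l ∧ p ≤ 2 * C.offQ Q1 l),
    (1 : ℝ) / ((Fintype.card Y : ℝ) - C.tl l)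

/-- the sum over the broken allowed lines -/
noncomputable def Bz (C : Cone Y U E G P R) (p : ℕ) (Q1 : Finset Y) (z : U) : ℝ :=
  ∑ l ∈ univ.filter (fun l => C.ok z l ∧ p ≤ C.tl l ∧ ¬ p ≤ 2 * C.offQ Q1 l),
    (1 : ℝ) / ((Fintype.card Y : ℝ) - C.tl l)

theorem Fz_eq (C : Cone Y U E G P R) (p : ℕ) (Q1 : Finset Y) (z : U) :
    C.Fz p z = C.Gz p Q1 z + C.Bz p Q1 z := by
  unfold Fz Gz Bz
  rw [← Finset.sum_filter_add_sum_filter_not (s := univ.filter fun l => C.ok z l ∧ p ≤ C.tl l)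
    (fun l => p ≤ 2 * C.offQ Q1 l), Finset.filter_filter, Finset.filter_filter]
  congr 1 <;>
  · refine Finset.sum_congr ?_ (fun _ _ => rfl)
    ext l
    simp only [Finset.mem_filter, Finset.mem_univ, true_and]
    tauto

theorem tl_le (C : Cone Y U E G P R) (l : E) : C.tl l ≤ C.s := C.short l

variable {a : ℕ}

theorem num_small {a N j : ℕ} (ha : 3000 ≤ a) (hN2 : N ≤ 2 * a ^ 40) (hsmall : a ^ 3 * j < 8 * N) :
    180 * j ≤ a ^ 19 * (a ^ 19 - 2) := by
  have ha0 : 0 < a := by omega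
  have h1 : j < 16 * a ^ 37 := by
    have h2 : a ^ 3 * j < a ^ 3 * (16 * a ^ 37) := by
      calc a ^ 3 * j < 8 * N := hsmall
        _ ≤ 8 * (2 * a ^ 40) := Nat.mul_le_mul_left _ hN2
        _ = a ^ 3 * (16 * a ^ 37) := by ring
    exact Nat.lt_of_mul_lt_mul_left h2
  have h2 : a ^ 19 * a ^ 19 = a * a ^ 37 := by ring
  have h3 : a ^ 19 ≤ a ^ 37 := Nat.pow_le_pow_right ha0 (by norm_num)
  have h4 : a ^ 19 * (a ^ 19 - 2) = a ^ 19 * a ^ 19 - a ^ 19 * 2 := Nat.mul_sub _ _ _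
  have h5 : 3000 * a ^ 37 ≤ a * a ^ 37 := Nat.mul_le_mul_right _ ha
  omega

theorem Bz_le (C : Cone Y U E G P R) (hN : a ^ 40 ≤ Fintype.card Y) (ha : 3000 ≤ a)
    (hs : C.s ≤ a ^ 34) (p : ℕ) (Q1 : Finset Y) (z : U) :
    C.Bz p Q1 z * (10 * Fintype.card Y) ≤
      11 * (univ.filter fun l => p ≤ C.tl l ∧ 2 * C.offQ Q1 l < p).card := by
  have ha0 : 0 < a := by omega
  have hsN : 11 * C.s ≤ Fintype.card Y := by
    calc 11 * C.s ≤ 11 * a ^ 34 := Nat.mul_le_mul_left _ hs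
      _ ≤ a ^ 6 * a ^ 34 := by
          refine Nat.mul_le_mul_right _ ?_
          calc 11 ≤ a := by omega
            _ = a ^ 1 := (pow_one a).symm
            _ ≤ a ^ 6 := Nat.pow_le_pow_right ha0 (by norm_num)
      _ = a ^ 40 := by ring
      _ ≤ _ := hN
  have hN0 : 0 < Fintype.card Y := lt_of_lt_of_le (pow_pos ha0 _) hN
  have hsR : (11 : ℝ) * C.s ≤ Fintype.card Y := by exact_mod_cast hsN
  have hN0R : (0 : ℝ) < Fintype.card Y := by exact_mod_cast hN0
  unfold Bz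
  rw [Finset.sum_mul]
  have h1 : ∀ l ∈ univ.filter (fun l => C.ok z l ∧ p ≤ C.tl l ∧ ¬ p ≤ 2 * C.offQ Q1 l),
      (1 : ℝ) / ((Fintype.card Y : ℝ) - C.tl l) * (10 * Fintype.card Y) ≤ 11 := by
    intro l _
    have h2 : (C.tl l : ℝ) ≤ C.s := by exact_mod_cast C.tl_le l
    have h3 : (0 : ℝ) ≤ (C.tl l : ℝ) := Nat.cast_nonneg _
    have h4 : (0 : ℝ) < (Fintype.card Y : ℝ) - C.tl l := by linarith
    rw [div_mul_eq_mul_div, div_le_iff₀ h4]
    linarith
  refine (Finset.sum_le_card_nsmul _ _ _ h1).trans ?_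
  rw [nsmul_eq_mul, mul_comm]
  refine mul_le_mul_of_nonneg_left ?_ (by norm_num)
  have h2 : (univ.filter (fun l => C.ok z l ∧ p ≤ C.tl l ∧ ¬ p ≤ 2 * C.offQ Q1 l)).card ≤
      (univ.filter fun l => p ≤ C.tl l ∧ 2 * C.offQ Q1 l < p).card := by
    refine Finset.card_le_card ?_
    intro l hl
    obtain ⟨-, h3, h4⟩ := (Finset.mem_filter.mp hl).2
    exact Finset.mem_filter.mpr ⟨Finset.mem_univ _, h3, by omega⟩
  exact_mod_cast h2

/-- **Totals in case (b)**, a user which is not bad. -/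
theorem total_good (C : Cone Y U E G P R) (ha : 3000 ≤ a) (hN : a ^ 40 ≤ Fintype.card Y)
    (hN2 : Fintype.card Y ≤ 2 * a ^ 40) (hs : C.s ≤ a ^ 34) {J : Finset E} {α β : E → Y}
    (hsmall : a ^ 3 * J.card < 8 * Fintype.card Y) {z : U} (hz : ¬ C.Bad J z)
    (hdef : 1 ≤ C.Fz (a ^ 19) z + (C.Jz J z : ℝ) / (4 * Fintype.card Y)) :
    1 ≤ C.Gz (a ^ 19) (sup1 J α β) z + (C.Jz J z : ℝ) / (2 * Fintype.card Y) := by
  have ha0 : 0 < a := by omega
  have hN0 : 0 < Fintype.card Y := lt_of_lt_of_le (pow_pos ha0 _) hN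
  have hN0R : (0 : ℝ) < Fintype.card Y := by exact_mod_cast hN0
  set b := (univ.filter fun l => a ^ 19 ≤ C.tl l ∧ 2 * C.offQ (sup1 J α β) l < a ^ 19).card
    with hb
  have h1 : a ^ 19 * (a ^ 19 - 2) * b ≤ 16 * (J.card * J.card) := by
    have h2 : 2 ≤ a ^ 19 := by
      calc 2 ≤ a := by omega
        _ = a ^ 1 := (pow_one a).symm
        _ ≤ a ^ 19 := Nat.pow_le_pow_right ha0 (by norm_num)
    refine (C.broken_card (sup1 J α β) h2).trans ?_
    have h3 := sup1_card J α β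
    calc 4 * ((sup1 J α β).card * (sup1 J α β).card) ≤ 4 * ((2 * J.card) * (2 * J.card)) :=
          Nat.mul_le_mul_left _ (Nat.mul_le_mul h3 h3)
      _ = 16 * (J.card * J.card) := by ring
  have h2 := num_small ha hN2 hsmall
  -- `44 b ≤ 10 J_z`
  have h3 : 44 * b ≤ 10 * C.Jz J z := by
    by_cases hj : 6 ≤ J.card
    · have h4 : J.card ≤ 2 * C.Jz J z := by
        by_contra hcon
        exact hz ⟨hj, by omega⟩
      have h5 : 180 * b ≤ 16 * J.card := by
        have h6 : (180 * b) * J.card ≤ (16 * J.card) * J.card := by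
          calc (180 * b) * J.card = (180 * J.card) * b := by ring
            _ ≤ (a ^ 19 * (a ^ 19 - 2)) * b := Nat.mul_le_mul_right _ h2
            _ ≤ 16 * (J.card * J.card) := h1
            _ = (16 * J.card) * J.card := by ring
        exact Nat.le_of_mul_le_mul_right h6 (by omega)
      omega
    · have h4 : b = 0 := by
        by_contra hb0
        have h50 : J.card ≤ 5 := by omega
        have h5 : J.card * J.card ≤ 5 * 5 := Nat.mul_le_mul h50 h50
        have h6 : a ^ 19 * (a ^ 19 - 2) ≤ a ^ 19 * (a ^ 19 - 2) * b :=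
          Nat.le_mul_of_pos_right _ (by omega)
        have h7 : 3000 ≤ a ^ 19 := by
          calc 3000 ≤ a := ha
            _ = a ^ 1 := (pow_one a).symm
            _ ≤ a ^ 19 := Nat.pow_le_pow_right ha0 (by norm_num)
        have h8 : 3000 * 1 ≤ a ^ 19 * (a ^ 19 - 2) := Nat.mul_le_mul h7 (by omega)
        omega
      rw [h4]
      omega
  have h3R : (44 : ℝ) * b ≤ 10 * C.Jz J z := by exact_mod_cast h3
  have h4 := C.Bz_le hN ha hs (a ^ 19) (sup1 J α β) z
  rw [← hb] at h4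
  have h5 : C.Bz (a ^ 19) (sup1 J α β) z ≤ (C.Jz J z : ℝ) / (4 * Fintype.card Y) := by
    rw [le_div_iff₀ (by positivity)]
    nlinarith
  have h6 := C.Fz_eq (a ^ 19) (sup1 J α β) z
  have h7 : (C.Jz J z : ℝ) / (2 * Fintype.card Y) =
      (C.Jz J z : ℝ) / (4 * Fintype.card Y) + (C.Jz J z : ℝ) / (4 * Fintype.card Y) := by
    field_simp
    ring
  rw [h7]
  linarith

/-- **Totals in case (b)**, every user. -/
theorem total_bad (C : Cone Y U E G P R) (Q1 : Finset Y) {p : ℕ} {J : Finset E} {z : U}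
    (hdef : 1 ≤ C.Fz p z + (C.Jz J z : ℝ) / (4 * Fintype.card Y)) :
    1 ≤ C.Gz p Q1 z + C.Bz p Q1 z + (C.Jz J z : ℝ) / (2 * Fintype.card Y) := by
  rw [← C.Fz_eq p Q1 z]
  refine hdef.trans ?_
  have h1 : (0 : ℝ) ≤ (C.Jz J z : ℝ) := Nat.cast_nonneg _
  have h2 : (0 : ℝ) ≤ (Fintype.card Y : ℝ) := Nat.cast_nonneg _
  have h3 : (C.Jz J z : ℝ) / (4 * Fintype.card Y) ≤ (C.Jz J z : ℝ) / (2 * Fintype.card Y) := by
    rcases h2.eq_or_lt with h | h
    · rw [← h]
      simp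
    · exact div_le_div_of_nonneg_left h1 (by linarith) (by linarith)
  linarith

end H20SW.Cone
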