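import Pool.Agent.Helper20.SW.Cone

/-!
# Counts and loads on a cone
-/

set_option autoImplicit false
set_option linter.unusedSectionVars false

namespace H20SW.Cone

open Finset
open scoped Classical

variable {Y U E G P R : Type} [Fintype Y] [Fintype U] [Fintype E]

/-- the points of a line off `Q1` -/
noncomputable def offQ (C : Cone Y U E G P R) (Q1 : Finset Y) (l : E) : ℕ :=
  (univ.filter fun y => C.on y l ∧ y ∉ Q1).card

theorem tl_eq (C : Cone Y U E G P R) (Q1 : Finset Y) (l : E) :
    C.tl l = C.offQ Q1 l + (Q1.filter fun y => C.on y l).card := by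
  unfold tl offQ
  rw [← Finset.card_filter_add_card_filter_not (s := univ.filter fun y => C.on y l)
    (fun y => y ∉ Q1), Finset.filter_filter]
  congr 1
  congr 1
  ext y
  simp only [Finset.mem_filter, Finset.mem_univ, true_and, not_not]
  tauto

/-- **Broken lines** are few. -/
theorem broken_card (C : Cone Y U E G P R) (Q1 : Finset Y) {p : ℕ} (hp : 2 ≤ p) :
    p * (p - 2) * (univ.filter fun l => p ≤ C.tl l ∧ 2 * C.offQ Q1 l < p).card ≤
      4 * (Q1.card * Q1.card) := by
  set B := univ.filter fun l => p ≤ C.tl l ∧ 2 * C.offQ Q1 l < p with hB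
  -- pairs of points of `Q1`
  have h1 : ∑ l ∈ B, ((Q1.filter fun y => C.on y l).offDiag).card ≤ (Q1.offDiag).card := by
    rw [← Finset.card_biUnion]
    · refine Finset.card_le_card ?_
      intro q hq
      obtain ⟨l, -, hl⟩ := Finset.mem_biUnion.mp hq
      rw [Finset.mem_offDiag] at hl ⊢
      exact ⟨(Finset.mem_filter.mp hl.1).1, (Finset.mem_filter.mp hl.2.1).1, hl.2.2⟩
    · intro l _ m _ hlm
      refine Finset.disjoint_left.mpr ?_
      intro q hq hq'
      rw [Finset.mem_offDiag] at hq hq'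
      exact hlm (C.uniq q.1 q.2 l m hq.2.2 (Finset.mem_filter.mp hq.1).2
        (Finset.mem_filter.mp hq.2.1).2 (Finset.mem_filter.mp hq'.1).2
        (Finset.mem_filter.mp hq'.2.1).2)
  have h2 : ∀ l ∈ B, p * (p - 2) ≤ 4 * ((Q1.filter fun y => C.on y l).offDiag).card := by
    intro l hl
    obtain ⟨h3, h4⟩ := (Finset.mem_filter.mp hl).2
    have h5 := C.tl_eq Q1 l
    rw [Finset.offDiag_card]
    set c := (Q1.filter fun y => C.on y l).card with hc
    have h6 : p ≤ 2 * c := by omega
    have h7 : c * c - c = c * (c - 1) := by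
      rw [Nat.mul_sub, mul_one]
    rw [h7]
    have h8 : p - 2 ≤ 2 * (c - 1) := by omega
    calc p * (p - 2) ≤ (2 * c) * (2 * (c - 1)) := Nat.mul_le_mul h6 h8
      _ = 4 * (c * (c - 1)) := by ring
  calc p * (p - 2) * B.card = ∑ l ∈ B, p * (p - 2) := by
        rw [Finset.sum_const, smul_eq_mul, mul_comm]
    _ ≤ ∑ l ∈ B, 4 * ((Q1.filter fun y => C.on y l).offDiag).card := Finset.sum_le_sum h2
    _ = 4 * ∑ l ∈ B, ((Q1.filter fun y => C.on y l).offDiag).card := by rw [Finset.mul_sum]
    _ ≤ 4 * (Q1.offDiag).card := Nat.mul_le_mul_left _ h1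
    _ ≤ 4 * (Q1.card * Q1.card) := by
        refine Nat.mul_le_mul_left _ ?_
        rw [Finset.offDiag_card]
        exact Nat.sub_le _ _

/-- The lines through a point: the other points are counted once. -/
theorem sum_through (C : Cone Y U E G P R) (y : Y) :
    ∑ l ∈ univ.filter (fun l => C.on y l), (C.tl l - 1) ≤ Fintype.card Y - 1 := by
  have h1 : ∀ l ∈ univ.filter (fun l => C.on y l), C.tl l - 1 =
      (univ.filter fun x => C.on x l ∧ x ≠ y).card := by
    intro l hl
    have hy := (Finset.mem_filter.mp hl).2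
    unfold tl
    have : (univ.filter fun x => C.on x l ∧ x ≠ y) = (univ.filter fun x => C.on x l).erase y := by
      ext x
      simp only [Finset.mem_filter, Finset.mem_univ, true_and, Finset.mem_erase]
      tauto
    rw [this, Finset.card_erase_of_mem]
    simp [hy]
  rw [Finset.sum_congr rfl h1, ← Finset.card_biUnion]
  · have h2 : (univ.filter (fun l => C.on y l)).biUnion
        (fun l => univ.filter fun x => C.on x l ∧ x ≠ y) ⊆ (univ : Finset Y).erase y := by
      intro x hx
      obtain ⟨l, -, hl⟩ := Finset.mem_biUnion.mp hx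
      rw [Finset.mem_erase]
      exact ⟨(Finset.mem_filter.mp hl).2.2, Finset.mem_univ _⟩
    refine (Finset.card_le_card h2).trans ?_
    rw [Finset.card_erase_of_mem (Finset.mem_univ _), Finset.card_univ]
  · intro l hl m hm hlm
    rw [Finset.mem_coe, Finset.mem_filter] at hl hm
    refine Finset.disjoint_left.mpr ?_
    intro x hx hx'
    obtain ⟨h3, h4⟩ := (Finset.mem_filter.mp hx).2
    obtain ⟨h5, -⟩ := (Finset.mem_filter.mp hx').2
    exact hlm (C.uniq x y l m h4 h3 hl.2 h5 hm.2)

/-- The reciprocals of the fat lines through a point. -/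
theorem sum_inv_fat (C : Cone Y U E G P R) (y : Y) {p : ℕ} (hp : 2 ≤ p) :
    ∑ l ∈ univ.filter (fun l => C.on y l ∧ p ≤ C.tl l), (1 : ℝ) / C.tl l ≤
      (Fintype.card Y : ℝ) / (p * (p - 1)) := by
  have hp1 : (1 : ℝ) < p := by exact_mod_cast (by omega : 1 < p)
  have hpp : (0 : ℝ) < p * (p - 1) := by
    apply mul_pos <;> linarith
  have h1 : ∀ l ∈ univ.filter (fun l => C.on y l ∧ p ≤ C.tl l), (1 : ℝ) / C.tl l ≤
      ((C.tl l - 1 : ℕ) : ℝ) / (p * (p - 1)) := by
    intro l hl
    obtain ⟨-, h2⟩ := (Finset.mem_filter.mp hl).2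
    have h3 : (p : ℝ) ≤ C.tl l := by exact_mod_cast h2
    have h4 : ((C.tl l - 1 : ℕ) : ℝ) = (C.tl l : ℝ) - 1 := by
      rw [Nat.cast_sub (by omega)]
      simp
    rw [h4, div_le_div_iff₀ (by linarith) hpp, one_mul, mul_comm ((C.tl l : ℝ) - 1)]
    exact mul_le_mul h3 (by linarith) (by linarith) (by linarith)
  refine (Finset.sum_le_sum h1).trans ?_
  rw [← Finset.sum_div, div_le_div_iff_of_pos_right hpp]
  have h2 : ∑ l ∈ univ.filter (fun l => C.on y l ∧ p ≤ C.tl l), (C.tl l - 1) ≤
      Fintype.card Y := by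
    refine le_trans (Finset.sum_le_sum_of_subset (t := univ.filter (fun l => C.on y l)) ?_) ?_
    · intro l hl
      rw [Finset.mem_filter] at hl ⊢
      exact ⟨hl.1, hl.2.1⟩
    · exact (C.sum_through y).trans (Nat.sub_le _ _)
  have h3 : ((∑ l ∈ univ.filter (fun l => C.on y l ∧ p ≤ C.tl l), (C.tl l - 1) : ℕ) : ℝ) ≤
      (Fintype.card Y : ℝ) := by exact_mod_cast h2
  rw [Nat.cast_sum] at h3
  exact h3

/-- The number of users of a plane over a line. -/
theorem users_plane (C : Cone Y U E G P R) {z : U} {l : E} (hl : C.ok z l) :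
    ((univ.filter fun w => C.pl w l = C.pl z l).card : ℝ) ≤ (Fintype.card Y : ℝ) - C.tl l := by
  have h1 := C.card_pl z l hl
  have h2 : ((univ.filter fun w => C.pl w l = C.pl z l).card : ℝ) + (C.tl l : ℝ) ≤
      (Fintype.card Y : ℝ) := by
    unfold tl
    exact_mod_cast h1
  linarith

/-- The load of a plane over a fat line. -/
theorem plane_fat (C : Cone Y U E G P R) {z : U} {l : E} (hl : C.ok z l) :
    ∑ _w ∈ univ.filter (fun w => C.pl w l = C.pl z l), (1 : ℝ) / ((Fintype.card Y : ℝ) - C.tl l) ≤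
      1 := by
  have h1 := C.users_plane hl
  have h2 : 0 < ((univ.filter fun w => C.pl w l = C.pl z l).card : ℝ) := by
    have : 0 < (univ.filter fun w => C.pl w l = C.pl z l).card :=
      Finset.card_pos.mpr ⟨z, by simp⟩
    exact_mod_cast this
  rw [Finset.sum_const, nsmul_eq_mul, mul_one_div, div_le_one (by linarith)]
  exact h1

end H20SW.Cone
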