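import Pool.Agent.Helper56.RF.Totals
import Pool.Agent.Helper78.RF.Counts

/-!
# Case (b): the totals, explicit form
-/

set_option autoImplicit false
set_option linter.unusedSectionVars false
set_option linter.unusedVariables false

namespace Pool.Agent.Helper56.RF

open Finset H20SW
open scoped Classical

variable {Y U E G P R : Type} [Fintype Y] [Fintype U] [Fintype E]

theorem total_good (C : Cone Y U E G P R) {a : ℕ} (ha : 3000 ≤ a)
    (hN : a ^ 40 ≤ Fintype.card Y) (hN2 : Fintype.card Y ≤ 2 * a ^ 40) (hs : C.s ≤ a ^ 34)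
    {J : Finset E} {α β : E → Y} (hJ : C.Fam (a ^ 19) a J α β)
    (hsmall : a ^ 3 * J.card < 8 * Fintype.card Y) (z : U)
    (hdef : 1 ≤ C.Fz (a ^ 19) z + (C.Jz J z : ℝ) / (4 * Fintype.card Y)) (hz : ¬ C.Bad J z) :
    1 ≤ (∑ l ∈ univ.filter (fun l => C.ok z l ∧ a ^ 19 ≤ C.tl l ∧
      a ^ 19 ≤ 2 * (univ.filter fun y => C.on y l ∧ y ∉ Pool.Agent.Helper78.RF.Q1 J α β).card),
      (1 : ℝ) / ((Fintype.card Y : ℝ) - C.tl l)) + (C.Jz J z : ℝ) / (2 * Fintype.card Y) := by
  have h := C.total_good ha hN hN2 hs (α := α) (β := β) hsmall hz hdef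
  unfold H20SW.Cone.Gz H20SW.Cone.offQ H20SW.Cone.sup1 at h
  unfold Pool.Agent.Helper78.RF.Q1
  convert h

end Pool.Agent.Helper56.RF
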